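import Pool.Agent.H82.KL.Targets2
import Pool.Agent.H14.LS.Sym
import Pool.Agent.H58.LS.KBV
import Pool.Agent.H19.LS.YG

/-!
Multilinear local smoothing: frequency localized functions and Bessel potentials.
-/

set_option autoImplicit false

namespace Pool.Agent.H82.KL

open MeasureTheory Set FourierTransform
open scoped ENNReal NNReal SchwartzMap

section

open Pool.Agent.H83.LS Pool.Agent.H14.LS

/-- the family of symbols `a(ξ) (ε² + 4π²|ξ|²)^(-r/2)` -/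
noncomputable def famA {d : ℕ} (a : Pool.Agent.H82.KL.EE d → ℂ) (r : ℝ)
    (q : (Fin 1 → ℝ) × Pool.Agent.H82.KL.EE d) : ℂ :=
  a q.2 * (((q.1 0 ^ 2 + 4 * Real.pi ^ 2 * ‖q.2‖ ^ 2) ^ (-r / 2) : ℝ) : ℂ)

theorem famA_smooth {d : ℕ} {a : Pool.Agent.H82.KL.EE d → ℂ} (ha : Sym a) (r : ℝ) :
    ContDiff ℝ (⊤ : ℕ∞) (famA a r) := by
  rw [contDiff_iff_contDiffAt]
  rintro ⟨ε, ξ⟩
  by_cases hξ : ξ ∈ tsupport a
  · have h0 : ξ ≠ 0 := fun h => ha.2.2 (h ▸ hξ)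
    have hpos : 0 < ε 0 ^ 2 + 4 * Real.pi ^ 2 * ‖ξ‖ ^ 2 := by
      have : 0 < ‖ξ‖ := norm_pos_iff.2 h0
      positivity
    unfold famA
    apply ContDiffAt.mul
    · exact (ha.1.comp contDiff_snd).contDiffAt
    · apply Complex.ofRealCLM.contDiff.contDiffAt.comp
      apply ContDiffAt.rpow_const_of_ne
      · apply ContDiffAt.add
        · exact ((contDiff_apply ℝ ℝ (0 : Fin 1)).comp contDiff_fst).contDiffAt.pow 2
        · exact contDiffAt_const.mul (contDiff_snd.contDiffAt.norm_sq ℝ)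
      · exact hpos.ne'
  · have h1 : famA a r =ᶠ[nhds (ε, ξ)] fun _ => 0 := by
      have h2 : IsOpen {q : (Fin 1 → ℝ) × Pool.Agent.H82.KL.EE d | q.2 ∉ tsupport a} :=
        (isClosed_tsupport a).isOpen_compl.preimage continuous_snd
      filter_upwards [h2.mem_nhds hξ] with q hq
      unfold famA
      rw [image_eq_zero_of_notMem_tsupport hq, zero_mul]
    exact contDiffAt_const.congr_of_eventuallyEq h1

theorem famA_supp {d : ℕ} {a : Pool.Agent.H82.KL.EE d → ℂ} (ha : Sym a) (r : ℝ) :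
    ∃ R : ℝ, ∀ (ε : Fin 1 → ℝ) (ξ : Pool.Agent.H82.KL.EE d), R < ‖ξ‖ → famA a r (ε, ξ) = 0 := by
  obtain ⟨R, hR⟩ := ha.2.1.isCompact.isBounded.exists_norm_le
  refine ⟨R, fun ε ξ hξ => ?_⟩
  unfold famA
  have h1 : a ξ = 0 := by
    by_contra h
    exact absurd (hR ξ (subset_tsupport _ h)) (not_le.2 hξ)
  simp only [h1, zero_mul]

theorem famA_int {d : ℕ} {a : Pool.Agent.H82.KL.EE d → ℂ} (ha : Sym a) (r : ℝ)
    (ε : Fin 1 → ℝ) (c : ℝ) (hc : 0 < c) :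
    Integrable (fun ξ : Pool.Agent.H82.KL.EE d => famA a r (ε, c • ξ)) := by
  have h1 : Continuous (fun ξ : Pool.Agent.H82.KL.EE d => famA a r (ε, c • ξ)) :=
    (famA_smooth ha r).continuous.comp (by fun_prop)
  obtain ⟨R, hR⟩ := famA_supp ha r
  refine h1.integrable_of_hasCompactSupport ?_
  refine HasCompactSupport.of_support_subset_isCompact (isCompact_closedBall 0 (R / c)) ?_
  intro ξ hξ
  rw [Function.mem_support] at hξ
  rw [mem_closedBall_zero_iff, le_div_iff₀ hc]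
  by_contra h
  rw [not_le] at h
  apply hξ
  apply hR
  rw [norm_smul, Real.norm_of_nonneg hc.le]
  linarith

theorem famA_bs {d : ℕ} (a : Pool.Agent.H82.KL.EE d → ℂ) (r : ℝ) {lam : ℝ} (hl : 0 < lam)
    (ξ : Pool.Agent.H82.KL.EE d) :
    a (lam⁻¹ • ξ) = ((lam ^ (-r) : ℝ) : ℂ) *
      (famA a r ((fun _ => lam⁻¹), lam⁻¹ • ξ) * bs r ξ) := by
  unfold famA bs
  simp only
  have h1 : (lam⁻¹) ^ 2 + 4 * Real.pi ^ 2 * ‖lam⁻¹ • ξ‖ ^ 2 =
      lam ^ (-2 : ℝ) * (1 + 4 * Real.pi ^ 2 * ‖ξ‖ ^ 2) := by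
    rw [Real.rpow_neg hl.le, Real.rpow_two, norm_smul, Real.norm_of_nonneg (by positivity)]
    field_simp
  have hX : 0 < 1 + 4 * Real.pi ^ 2 * ‖ξ‖ ^ 2 := by positivity
  rw [h1, Real.mul_rpow (by positivity) hX.le, ← Real.rpow_mul hl.le]
  have h2 : lam ^ (-r) * (lam ^ (-2 * (-r / 2)) * (1 + 4 * Real.pi ^ 2 * ‖ξ‖ ^ 2) ^ (-r / 2)) *
      (1 + 4 * Real.pi ^ 2 * ‖ξ‖ ^ 2) ^ (r / 2) = 1 := by
    rw [← mul_assoc, ← Real.rpow_add hl, mul_assoc, ← Real.rpow_add hX]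
    have : -r + -2 * (-r / 2) = 0 := by ring
    rw [this]
    have : -r / 2 + r / 2 = 0 := by ring
    rw [this]; simp
  have h3 : (((lam ^ (-r) : ℝ) : ℂ) * ((((lam ^ (-2 * (-r / 2)) *
      (1 + 4 * Real.pi ^ 2 * ‖ξ‖ ^ 2) ^ (-r / 2) : ℝ)) : ℂ)) *
      ((((1 + 4 * Real.pi ^ 2 * ‖ξ‖ ^ 2) ^ (r / 2) : ℝ)) : ℂ)) = 1 := by
    exact_mod_cast congrArg (fun x : ℝ => (x : ℂ)) h2
  linear_combination (-a (lam⁻¹ • ξ)) * h3

/-- the kernels are uniformly integrable -/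
theorem famA_L1 {d : ℕ} {a : Pool.Agent.H82.KL.EE d → ℂ} (ha : Sym a) (r : ℝ) :
    ∃ C : ℝ≥0, ∀ lam : ℝ, 1 ≤ lam →
      ∫⁻ x, ‖MK (fun ξ : Pool.Agent.H82.KL.EE d =>
        famA a r ((fun _ => lam⁻¹), lam⁻¹ • ξ)) x‖ₑ ≤ C := by
  obtain ⟨R, hR⟩ := famA_supp ha r
  obtain ⟨C, hC⟩ := Pool.Agent.H58.LS.kbv d 1 (Icc 0 1) univ (famA a r) R isCompact_Icc isOpen_univ
    (subset_univ _) (famA_smooth ha r).contDiffOn (fun ε _ ξ hξ => hR ε ξ hξ) (d + 1)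
  have hfin : ∫⁻ x : Pool.Agent.H82.KL.EE d,
      ENNReal.ofReal ((1 + ‖x‖) ^ (-((d : ℝ) + 1))) < ⊤ := by
    apply finite_integral_one_add_norm
    rw [finrank_euclideanSpace, Fintype.card_fin]
    linarith
  refine ⟨(ENNReal.ofReal C * ∫⁻ x : Pool.Agent.H82.KL.EE d,
      ENNReal.ofReal ((1 + ‖x‖) ^ (-((d : ℝ) + 1)))).toNNReal, fun lam hl => ?_⟩
  rw [ENNReal.coe_toNNReal (ENNReal.mul_ne_top ENNReal.ofReal_ne_top hfin.ne)]
  have hl0 : 0 < lam := by linarith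
  obtain ⟨ε, hε⟩ : ∃ ε : Fin 1 → ℝ, ε = fun _ => lam⁻¹ := ⟨_, rfl⟩
  have hεK : ε ∈ Icc (0 : Fin 1 → ℝ) 1 := by
    rw [hε]
    refine ⟨fun _ => by simp; positivity, fun _ => ?_⟩
    simp only [Pi.one_apply]
    exact inv_le_one_of_one_le₀ hl
  rw [← hε]
  have h1 : ∀ x : Pool.Agent.H82.KL.EE d,
      MK (fun ξ : Pool.Agent.H82.KL.EE d => famA a r (ε, lam⁻¹ • ξ)) x =
      ((lam ^ d : ℝ) : ℂ) * MK (fun ξ : Pool.Agent.H82.KL.EE d => famA a r (ε, ξ)) (lam • x) := by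
    intro x
    have h2 := MeasureTheory.Measure.integral_comp_smul (volume : Measure (Pool.Agent.H82.KL.EE d))
      (fun η : Pool.Agent.H82.KL.EE d =>
        Pool.Agent.H83.LS.e (inner ℝ (lam • x) η) * famA a r (ε, η)) lam⁻¹
    unfold MK
    have h3 : ∀ ξ : Pool.Agent.H82.KL.EE d, inner ℝ (lam • x) (lam⁻¹ • ξ) = inner ℝ x ξ := by
      intro ξ
      rw [inner_smul_left, inner_smul_right]
      simp only [conj_trivial]
      field_simp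
    simp only [h3] at h2
    rw [h2, finrank_euclideanSpace, Fintype.card_fin, inv_pow, inv_inv, abs_of_pos (by positivity),
      Complex.real_smul]
  have hcont : Continuous (MK (fun ξ : Pool.Agent.H82.KL.EE d => famA a r (ε, ξ))) := by
    have := famA_int ha r ε 1 one_pos
    simp only [one_smul] at this
    exact MK_continuous this
  have h4 : ∫⁻ x, ‖MK (fun ξ : Pool.Agent.H82.KL.EE d => famA a r (ε, lam⁻¹ • ξ)) x‖ₑ =
      ∫⁻ x, ‖MK (fun ξ : Pool.Agent.H82.KL.EE d => famA a r (ε, ξ)) x‖ₑ := by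
    have h5 : ∀ x : Pool.Agent.H82.KL.EE d,
        ‖MK (fun ξ : Pool.Agent.H82.KL.EE d => famA a r (ε, lam⁻¹ • ξ)) x‖ₑ =
        ENNReal.ofReal (lam ^ d) *
          ‖MK (fun ξ : Pool.Agent.H82.KL.EE d => famA a r (ε, ξ)) (lam • x)‖ₑ := by
      intro x
      rw [h1, enorm_mul]
      congr 1
      rw [← ofReal_norm, Complex.norm_real, Real.norm_of_nonneg (by positivity)]
    simp_rw [h5]
    rw [lintegral_const_mul' _ _ ENNReal.ofReal_ne_top]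
    have h6 := lintegral_map (μ := (volume : Measure (Pool.Agent.H82.KL.EE d)))
      (hcont.measurable.enorm) (measurable_const_smul lam)
    rw [Measure.map_addHaar_smul _ hl0.ne', lintegral_smul_measure] at h6
    rw [← h6, finrank_euclideanSpace, Fintype.card_fin, smul_eq_mul, ← mul_assoc,
      ← ENNReal.ofReal_mul (by positivity), abs_of_pos (by positivity),
      mul_inv_cancel₀ (by positivity), ENNReal.ofReal_one, one_mul]
  rw [h4, ← lintegral_const_mul' _ _ ENNReal.ofReal_ne_top]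
  refine lintegral_mono fun x => ?_
  have h7 := hC ε hεK x
  have h8 : (0 : ℝ) < (1 + ‖x‖) ^ (d + 1) := by positivity
  have hC0 : 0 ≤ C := le_trans (by positivity) h7
  rw [← ofReal_norm, ← ENNReal.ofReal_mul hC0]
  apply ENNReal.ofReal_le_ofReal
  have h9 : (1 + ‖x‖) ^ (-((d : ℝ) + 1)) = ((1 + ‖x‖) ^ (d + 1))⁻¹ := by
    rw [Real.rpow_neg (by positivity)]
    congr 1
    rw [← Real.rpow_natCast]
    push_cast
    rfl
  rw [h9, ← div_eq_mul_inv, le_div_iff₀ h8]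
  exact h7

theorem bes_aux {d : ℕ} {p r : ℝ} {a : Pool.Agent.H82.KL.EE d → ℂ} (hp : 1 ≤ p) (ha : Sym a) :
    ∃ C : ℝ≥0, ∀ (lam : ℝ) (f : 𝓢(Pool.Agent.H82.KL.EE d, ℂ)), 1 ≤ lam →
      ∃ g : 𝓢(Pool.Agent.H82.KL.EE d, ℂ),
      (∀ ξ, 𝓕 (g : Pool.Agent.H82.KL.EE d → ℂ) ξ =
        a (lam⁻¹ • ξ) * 𝓕 (f : Pool.Agent.H82.KL.EE d → ℂ) ξ) ∧
      ∫⁻ y, ‖g y‖ₑ ^ p ≤ C * ENNReal.ofReal (lam ^ (-(p * r))) *
        ∫⁻ y, ‖Pool.Agent.H84.BR.CD.besS r f y‖ₑ ^ p := by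
  obtain ⟨C, hC⟩ := famA_L1 ha r
  refine ⟨C ^ p, fun lam f hl => ?_⟩
  have hl0 : 0 < lam := by linarith
  have htemp : (fun ξ : Pool.Agent.H82.KL.EE d => a (lam⁻¹ • ξ)).HasTemperateGrowth := by
    have h1 : ContDiff ℝ (⊤ : ℕ∞) (fun ξ : Pool.Agent.H82.KL.EE d => a (lam⁻¹ • ξ)) :=
      ha.1.comp (contDiff_const_smul _)
    have h2 : HasCompactSupport (fun ξ : Pool.Agent.H82.KL.EE d => a (lam⁻¹ • ξ)) :=
      ha.2.1.comp_smul (inv_ne_zero hl0.ne')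
    exact h2.hasTemperateGrowth h1
  obtain ⟨g, hg1, hg2⟩ := schwartz_mult htemp f
  obtain ⟨h, hh1, hh2⟩ := besS_schwartz r f
  refine ⟨g, hg1, ?_⟩
  obtain ⟨M, hM⟩ : ∃ M : Pool.Agent.H82.KL.EE d → ℂ,
      M = fun ξ => famA a r ((fun _ => lam⁻¹), lam⁻¹ • ξ) := ⟨_, rfl⟩
  have hMi : Integrable M := by
    rw [hM]
    exact famA_int ha r _ _ (by positivity)
  have hY := MM_young Pool.Agent.H19.LS.YG_proof hMi h.integrable h.continuous.measurable hp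
  have hgM : ∀ x, g x = ((lam ^ (-r) : ℝ) : ℂ) * MM M h x := by
    intro x
    rw [hg2]
    unfold MM
    rw [← integral_const_mul]
    refine integral_congr_ae (Filter.Eventually.of_forall fun ξ => ?_)
    simp only
    rw [hh1, hM, famA_bs a r hl0 ξ]
    ring
  have h1 : ∀ x, ‖g x‖ₑ ^ p = ENNReal.ofReal (lam ^ (-(p * r))) * ‖MM M h x‖ₑ ^ p := by
    intro x
    rw [hgM, enorm_mul, ENNReal.mul_rpow_of_nonneg _ _ (by linarith)]
    congr 1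
    rw [← ofReal_norm, Complex.norm_real, Real.norm_of_nonneg (by positivity),
      ENNReal.ofReal_rpow_of_nonneg (by positivity) (by linarith), ← Real.rpow_mul hl0.le]
    congr 2
    ring
  simp_rw [h1]
  rw [lintegral_const_mul' _ _ ENNReal.ofReal_ne_top]
  have h2 : ∫⁻ y, ‖h y‖ₑ ^ p = ∫⁻ y, ‖Pool.Agent.H84.BR.CD.besS r f y‖ₑ ^ p := by
    refine lintegral_congr fun y => ?_
    rw [hh2]
    rfl
  rw [h2] at hY
  have h3 : ∫⁻ x, ‖MK M x‖ₑ ≤ C := by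
    rw [hM]
    exact hC lam hl
  calc ENNReal.ofReal (lam ^ (-(p * r))) * ∫⁻ x, ‖MM M h x‖ₑ ^ p ≤
      ENNReal.ofReal (lam ^ (-(p * r))) * ((∫⁻ x, ‖MK M x‖ₑ) ^ p *
        ∫⁻ y, ‖Pool.Agent.H84.BR.CD.besS r f y‖ₑ ^ p) := mul_le_mul_right hY _
    _ ≤ ENNReal.ofReal (lam ^ (-(p * r))) * ((C : ℝ≥0∞) ^ p *
        ∫⁻ y, ‖Pool.Agent.H84.BR.CD.besS r f y‖ₑ ^ p) := by
        gcongr
    _ = _ := by
        rw [ENNReal.coe_rpow_of_nonneg _ (by linarith)]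
        ring

end

theorem bes_main : T_BES := fun _ _ _ _ hp ha => bes_aux hp ha

end Pool.Agent.H82.KL
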