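import Pool.Agent.H82.KL.Targets2

/-!
Multilinear local smoothing: the theorem from the estimate for one frequency and one tuple.
-/

set_option autoImplicit false

namespace Pool.Agent.H82.KL

open MeasureTheory Set FourierTransform
open scoped ENNReal NNReal SchwartzMap

theorem e_measurable : Measurable e := by
  unfold e
  fun_prop

theorem fourier_measurable {d : ℕ} (u : 𝓢(EE d, ℂ)) : Measurable (𝓕 (u : EE d → ℂ)) := by
  rw [← SchwartzMap.fourier_coe]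
  exact (𝓕 u).continuous.measurable

theorem hf_measurable {d : ℕ} (s : ℝ) (u₀ u₁ : 𝓢(EE d, ℂ)) :
    Measurable (hf s (u₀ : EE d → ℂ) (u₁ : EE d → ℂ)) := by
  unfold hf
  have h0 := fourier_measurable u₀
  have h1 := fourier_measurable u₁
  have h2 : Measurable fun ξ : EE d => ((‖ξ‖ : ℝ) : ℂ) := by fun_prop
  exact (h0.div_const 2).add ((h1.const_mul _).div (h2.const_mul _))

theorem pc_measurable {d : ℕ} {a : EE d → ℂ} (ha : Continuous a) (s : ℝ) (m : ℕ)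
    (u₀ u₁ : 𝓢(EE d, ℂ)) :
    Measurable fun q : ℝ × EE d => pc a s m (u₀ : EE d → ℂ) (u₁ : EE d → ℂ) q.1 q.2 := by
  unfold pc
  simp only [Real.fourierInv_eq']
  apply StronglyMeasurable.measurable
  apply StronglyMeasurable.integral_prod_right
    (f := fun (q : ℝ × EE d) (ξ : EE d) =>
      Complex.exp (((2 * Real.pi * inner ℝ ξ q.2 : ℝ) : ℂ) * Complex.I) •
        (e (s * q.1 * ‖ξ‖) * a (((2 : ℝ) ^ m)⁻¹ • ξ) * hf s (u₀ : EE d → ℂ) (u₁ : EE d → ℂ) ξ))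
  apply Measurable.stronglyMeasurable
  have h1 : Measurable fun w : (ℝ × EE d) × EE d =>
      Complex.exp (((2 * Real.pi * inner ℝ w.2 w.1.2 : ℝ) : ℂ) * Complex.I) := by fun_prop
  have h2 : Measurable fun w : (ℝ × EE d) × EE d => e (s * w.1.1 * ‖w.2‖) :=
    e_measurable.comp (by fun_prop)
  have h3 : Measurable fun w : (ℝ × EE d) × EE d => a (((2 : ℝ) ^ m)⁻¹ • w.2) :=
    ha.measurable.comp (by fun_prop)
  have h4 : Measurable fun w : (ℝ × EE d) × EE d => hf s (u₀ : EE d → ℂ) (u₁ : EE d → ℂ) w.2 :=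
    (hf_measurable s u₀ u₁).comp measurable_snd
  exact h1.smul ((h2.mul h3).mul h4)

theorem sum_rpow_le {ι : Type} (F : Finset ι) (f : ι → ℝ≥0∞) {q : ℝ} (hq0 : 0 < q) (hq1 : q ≤ 1) :
    (∑ c ∈ F, f c) ^ q ≤ ∑ c ∈ F, f c ^ q := by
  classical
  induction F using Finset.induction_on with
  | empty => simp [hq0]
  | insert c F hc ih =>
    rw [Finset.sum_insert hc, Finset.sum_insert hc]
    exact (ENNReal.rpow_add_le_add_rpow _ _ hq0.le hq1).trans (add_le_add le_rfl ih)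

theorem sup_rpow_le {ι : Type} (F : Finset ι) (P : ι → Prop) (v : ι → ℝ≥0∞)
    (hF : ∀ c, P c → c ∈ F) {p : ℝ} (hp : 0 < p) :
    (⨆ (c : ι) (_ : P c), v c) ^ p ≤ ∑ c ∈ F, v c ^ p := by
  have h1 : (⨆ (c : ι) (_ : P c), v c) ≤ (∑ c ∈ F, v c ^ p) ^ (1 / p) := by
    refine iSup₂_le fun c hc => ?_
    have h2 : v c ^ p ≤ ∑ c ∈ F, v c ^ p :=
      Finset.single_le_sum (f := fun c => v c ^ p) (fun _ _ => bot_le) (hF c hc)
    calc v c = (v c ^ p) ^ (1 / p) := by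
          rw [← ENNReal.rpow_mul, mul_one_div_cancel hp.ne', ENNReal.rpow_one]
      _ ≤ _ := ENNReal.rpow_le_rpow h2 (by positivity)
  calc (⨆ (c : ι) (_ : P c), v c) ^ p ≤ ((∑ c ∈ F, v c ^ p) ^ (1 / p)) ^ p :=
        ENNReal.rpow_le_rpow h1 hp.le
    _ = _ := by rw [← ENNReal.rpow_mul, one_div_mul_cancel hp.ne', ENNReal.rpow_one]

theorem int_sum {d : ℕ} {ι : Type} (F : Finset ι) (f : ι → ℝ × EE d → ℝ≥0∞)
    (hf : ∀ c, Measurable (f c)) :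
    ∫⁻ t in Icc (1 : ℝ) 2, ∫⁻ x : EE d, ∑ c ∈ F, f c (t, x) =
      ∑ c ∈ F, ∫⁻ t in Icc (1 : ℝ) 2, ∫⁻ x : EE d, f c (t, x) := by
  rw [← lintegral_finsetSum _ fun c _ => (hf c).lintegral_prod_right']
  refine lintegral_congr fun t => ?_
  exact lintegral_finsetSum _ fun c _ => (hf c).comp measurable_prodMk_left

theorem geo_sum (η : ℝ) (hη : 0 < η) : ∃ K : ℝ≥0,
    ∑' m : ℕ, ENNReal.ofReal ((2 : ℝ) ^ (-(η * m))) = K := by
  have h1 : ∀ m : ℕ, ENNReal.ofReal ((2 : ℝ) ^ (-(η * m))) =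
      ENNReal.ofReal ((2 : ℝ) ^ (-η)) ^ m := by
    intro m
    rw [← ENNReal.ofReal_pow (by positivity), ← Real.rpow_natCast, ← Real.rpow_mul (by norm_num)]
    congr 2
    ring
  simp_rw [h1]
  rw [ENNReal.tsum_geometric]
  have h2 : ENNReal.ofReal ((2 : ℝ) ^ (-η)) < 1 := by
    rw [ENNReal.ofReal_lt_one]
    exact Real.rpow_lt_one_of_one_lt_of_neg (by norm_num) (by linarith)
  have h3 : (1 - ENNReal.ofReal ((2 : ℝ) ^ (-η)))⁻¹ ≠ ⊤ := by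
    rw [ENNReal.inv_ne_top]
    exact (tsub_pos_of_lt h2).ne'
  exact ⟨_, (ENNReal.coe_toNNReal h3).symm⟩

theorem Pk_ge {d k : ℕ} (hd : 3 ≤ d) (hk : 2 ≤ k) : 2 ≤ Pk d k := by
  unfold Pk
  have h1 : (3 : ℝ) ≤ d := by exact_mod_cast hd
  have h2 : (2 : ℝ) ≤ k := by exact_mod_cast hk
  have h3 : 0 ≤ ((k : ℝ) - 1) * ((d : ℝ) - 3) := mul_nonneg (by linarith) (by linarith)
  have h4 : 0 ≤ 2 * ((d : ℝ) - 1) / (((k : ℝ) - 1) * ((d : ℝ) - 3) + 2) :=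
    div_nonneg (by linarith) (by linarith)
  linarith

theorem fin_main (h : T_PCB) : T_FIN := by
  classical
  intro d k n p σ a s hd hk hp hσ ha hs
  have hp2 : 2 ≤ p := (Pk_ge hd hk).trans hp
  have hp0 : 0 < p := by linarith
  obtain ⟨F, hF⟩ : ∃ F : Finset (Fin k → Fin n), F = Finset.univ.filter
      (fun c => TransvS (fun j => tsupport (a (c j))) (fun j => s (c j))) := ⟨_, rfl⟩
  have h1 : ∀ c : Fin k → Fin n, ∃ (C : ℝ≥0) (η : ℝ), 0 < η ∧ (c ∈ F → ∀ (m : ℕ)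
      (u₀ u₁ : 𝓢(EE d, ℂ)), (∫⁻ t in Icc (1 : ℝ) 2, ∫⁻ x : EE d,
        (⨅ j, ‖pc (a (c j)) (s (c j)) m u₀ u₁ t x‖ₑ) ^ p) ^ (1 / p) ≤
      C * ENNReal.ofReal ((2 : ℝ) ^ (-(η * m))) * Pool.Agent.H84.BR.CD.datN p σ u₀ u₁) := by
    intro c
    by_cases hc : c ∈ F
    · have hc' := hc
      rw [hF, Finset.mem_filter] at hc'
      obtain ⟨C, η, hη, hC⟩ := h d k p σ (fun j => a (c j)) (fun j => s (c j)) hd hk hp hσ
        (fun j => ha _) (fun j => hs _) hc'.2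
      exact ⟨C, η, hη, fun _ => hC⟩
    · exact ⟨0, 1, one_pos, fun h => absurd h hc⟩
  choose C η hη hC using h1
  choose K hK using fun c => geo_sum (η c) (hη c)
  refine ⟨∑ c ∈ F, C c * K c, fun u₀ u₁ => ?_⟩
  have h2 : ∀ m : ℕ, (∫⁻ t in Icc (1 : ℝ) 2, ∫⁻ x : EE d, Br k a s m u₀ u₁ t x ^ p) ^ (1 / p) ≤
      ∑ c ∈ F, C c * ENNReal.ofReal ((2 : ℝ) ^ (-(η c * m))) *
        Pool.Agent.H84.BR.CD.datN p σ u₀ u₁ := by
    intro m
    have hmeas : ∀ c : Fin k → Fin n, Measurable fun q : ℝ × EE d =>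
        (⨅ j, ‖pc (a (c j)) (s (c j)) m u₀ u₁ q.1 q.2‖ₑ) ^ p := by
      intro c
      exact (Measurable.iInf fun j =>
        (pc_measurable (ha (c j)).1.continuous (s (c j)) m u₀ u₁).enorm).pow_const _
    have h3 : ∀ t x, Br k a s m u₀ u₁ t x ^ p ≤
        ∑ c ∈ F, (⨅ j, ‖pc (a (c j)) (s (c j)) m u₀ u₁ t x‖ₑ) ^ p := by
      intro t x
      unfold Br
      refine sup_rpow_le F _ _ (fun c hc => ?_) hp0
      rw [hF, Finset.mem_filter]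
      exact ⟨Finset.mem_univ _, hc⟩
    calc (∫⁻ t in Icc (1 : ℝ) 2, ∫⁻ x : EE d, Br k a s m u₀ u₁ t x ^ p) ^ (1 / p) ≤
        (∫⁻ t in Icc (1 : ℝ) 2, ∫⁻ x : EE d,
          ∑ c ∈ F, (⨅ j, ‖pc (a (c j)) (s (c j)) m u₀ u₁ t x‖ₑ) ^ p) ^ (1 / p) :=
          ENNReal.rpow_le_rpow (lintegral_mono fun t => lintegral_mono fun x => h3 t x)
            (by positivity)
      _ = (∑ c ∈ F, ∫⁻ t in Icc (1 : ℝ) 2, ∫⁻ x : EE d,
          (⨅ j, ‖pc (a (c j)) (s (c j)) m u₀ u₁ t x‖ₑ) ^ p) ^ (1 / p) := by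
          rw [int_sum F (fun c q => (⨅ j, ‖pc (a (c j)) (s (c j)) m u₀ u₁ q.1 q.2‖ₑ) ^ p) hmeas]
      _ ≤ ∑ c ∈ F, (∫⁻ t in Icc (1 : ℝ) 2, ∫⁻ x : EE d,
          (⨅ j, ‖pc (a (c j)) (s (c j)) m u₀ u₁ t x‖ₑ) ^ p) ^ (1 / p) :=
          sum_rpow_le F _ (by positivity) (by rw [div_le_one hp0]; linarith)
      _ ≤ _ := Finset.sum_le_sum fun c hc => hC c hc m u₀ u₁
  calc ∑' m : ℕ, (∫⁻ t in Icc (1 : ℝ) 2, ∫⁻ x : EE d, Br k a s m u₀ u₁ t x ^ p) ^ (1 / p) ≤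
      ∑' m : ℕ, ∑ c ∈ F, C c * ENNReal.ofReal ((2 : ℝ) ^ (-(η c * m))) *
        Pool.Agent.H84.BR.CD.datN p σ u₀ u₁ := ENNReal.tsum_le_tsum h2
    _ = ∑ c ∈ F, ∑' m : ℕ, C c * ENNReal.ofReal ((2 : ℝ) ^ (-(η c * m))) *
        Pool.Agent.H84.BR.CD.datN p σ u₀ u₁ :=
        Summable.tsum_finsetSum fun c _ => ENNReal.summable
    _ = ∑ c ∈ F, C c * K c * Pool.Agent.H84.BR.CD.datN p σ u₀ u₁ := by
        refine Finset.sum_congr rfl fun c _ => ?_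
        rw [ENNReal.tsum_mul_right, ENNReal.tsum_mul_left, hK]
    _ = _ := by
        rw [← Finset.sum_mul]
        push_cast
        rfl

end Pool.Agent.H82.KL
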