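import Pool.Agent.H82.KL.Targets2
import Pool.Agent.H14.LS.Mult

/-!
Multilinear local smoothing: one frequency, Schwartz functions, with signs.
-/

set_option autoImplicit false

namespace Pool.Agent.H82.KL

open MeasureTheory Set FourierTransform
open scoped ENNReal NNReal SchwartzMap

section aux

open Pool.Agent.H83.LS Pool.Agent.H14.LS

variable {d : ℕ}

theorem e_eq_e : Pool.Agent.H82.KL.e = Pool.Agent.H83.LS.e := rfl

/-- scaling of the kernels -/
theorem U_scale (a : Pool.Agent.H82.KL.EE d → ℂ) {lam : ℝ} (hl : 0 < lam)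
    (y : Pool.Agent.H82.KL.EE d) (t : ℝ) :
    ((lam ^ d : ℝ) : ℂ) * Pool.Agent.H82.KL.U a (lam • y, lam * t) =
      MK (fun ξ : Pool.Agent.H82.KL.EE d =>
        Pool.Agent.H83.LS.e (t * ‖ξ‖) * a (lam⁻¹ • ξ)) y := by
  have h2 := MeasureTheory.Measure.integral_comp_smul (volume : Measure (Pool.Agent.H82.KL.EE d))
    (fun η : Pool.Agent.H82.KL.EE d =>
      Pool.Agent.H82.KL.e (inner ℝ (lam • y) η + lam * t * ‖η‖) * a η) lam⁻¹
  have h3 : ∀ ξ : Pool.Agent.H82.KL.EE d,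
      inner ℝ (lam • y) (lam⁻¹ • ξ) + lam * t * ‖lam⁻¹ • ξ‖ = inner ℝ y ξ + t * ‖ξ‖ := by
    intro ξ
    rw [inner_smul_left, inner_smul_right, norm_smul, Real.norm_of_nonneg (by positivity)]
    simp only [conj_trivial]
    field_simp
  simp only [h3] at h2
  rw [finrank_euclideanSpace, Fintype.card_fin, inv_pow, inv_inv, abs_of_pos (by positivity),
    Complex.real_smul] at h2
  unfold Pool.Agent.H82.KL.U MK
  rw [← h2]
  refine integral_congr_ae (Filter.Eventually.of_forall fun ξ => ?_)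
  simp only
  rw [e_eq_e, e_add]
  ring

theorem scaled_int {a : Pool.Agent.H82.KL.EE d → ℂ} (ha : Sym a) {lam : ℝ} (hl : 0 < lam) (t : ℝ) :
    Integrable (fun ξ : Pool.Agent.H82.KL.EE d =>
      Pool.Agent.H83.LS.e (t * ‖ξ‖) * a (lam⁻¹ • ξ)) := by
  have h1 : Continuous (fun ξ : Pool.Agent.H82.KL.EE d => a (lam⁻¹ • ξ)) :=
    ha.1.continuous.comp (continuous_const_smul _)
  have h2 : HasCompactSupport (fun ξ : Pool.Agent.H82.KL.EE d => a (lam⁻¹ • ξ)) :=
    ha.2.1.comp_smul (inv_ne_zero hl.ne')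
  have h3 : Continuous (fun ξ : Pool.Agent.H82.KL.EE d => Pool.Agent.H83.LS.e (t * ‖ξ‖)) :=
    continuous_e.comp (by fun_prop)
  exact (h3.mul h1).integrable_of_hasCompactSupport h2.mul_left

/-- the half wave as a function `W` -/
theorem wave_eq {a : Pool.Agent.H82.KL.EE d → ℂ} (ha : Sym a) {g : Pool.Agent.H82.KL.EE d → ℂ}
    (hg : Integrable g) {lam : ℝ} (hl : 0 < lam) (t : ℝ) (x : Pool.Agent.H82.KL.EE d) :
    MM (fun ξ : Pool.Agent.H82.KL.EE d => Pool.Agent.H83.LS.e (t * ‖ξ‖) * a (lam⁻¹ • ξ)) g x =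
      W a (fun y => g (lam⁻¹ • y)) (lam • x, lam * t) := by
  rw [MM_conv (scaled_int ha hl t) hg]
  unfold W
  have h2 := MeasureTheory.Measure.integral_comp_smul (volume : Measure (Pool.Agent.H82.KL.EE d))
    (fun y : Pool.Agent.H82.KL.EE d =>
      Pool.Agent.H82.KL.U a (lam • x - y, lam * t) * g (lam⁻¹ • y)) lam
  rw [finrank_euclideanSpace, Fintype.card_fin, abs_of_pos (by positivity)] at h2
  have h3 : (lam ^ d) • ∫ y : Pool.Agent.H82.KL.EE d,
      Pool.Agent.H82.KL.U a (lam • x - lam • y, lam * t) * g (lam⁻¹ • lam • y) =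
      ∫ y : Pool.Agent.H82.KL.EE d,
        Pool.Agent.H82.KL.U a (lam • x - y, lam * t) * g (lam⁻¹ • y) := by
    rw [h2, smul_smul, mul_inv_cancel₀ (by positivity), one_smul]
  simp only
  rw [← h3, ← integral_smul]
  refine integral_congr_ae (Filter.Eventually.of_forall fun y => ?_)
  simp only
  rw [← U_scale a hl, smul_smul, inv_mul_cancel₀ hl.ne', one_smul, smul_sub, Complex.real_smul]
  ring

/-- complex conjugation of a half wave -/
theorem conj_wave (a g : Pool.Agent.H82.KL.EE d → ℂ) (lam t : ℝ) (x : Pool.Agent.H82.KL.EE d) :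
    (starRingEnd ℂ) (MM (fun ξ : Pool.Agent.H82.KL.EE d =>
      Pool.Agent.H83.LS.e (-t * ‖ξ‖) * a (lam⁻¹ • ξ)) g x) =
    MM (fun ξ : Pool.Agent.H82.KL.EE d =>
      Pool.Agent.H83.LS.e (t * ‖ξ‖) * (starRingEnd ℂ) (a (-(lam⁻¹ • ξ))))
      (fun y => (starRingEnd ℂ) (g y)) x := by
  have hF : ∀ ξ : Pool.Agent.H82.KL.EE d,
      𝓕 (fun y => (starRingEnd ℂ) (g y)) ξ = (starRingEnd ℂ) (𝓕 g (-ξ)) := by
    intro ξ
    rw [ff_eq, ff_eq, ← integral_conj]
    congr 1; ext y
    rw [map_mul, conj_e]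
    congr 2
    rw [inner_neg_right, neg_neg]
  unfold MM
  rw [← integral_conj, ← integral_neg_eq_self]
  refine integral_congr_ae (Filter.Eventually.of_forall fun ξ => ?_)
  simp only
  rw [hF, map_mul, map_mul, map_mul, conj_e, conj_e, inner_neg_right, neg_neg, norm_neg, smul_neg]
  congr 3
  ring_nf

end aux

theorem sym_conj {d : ℕ} {a : EE d → ℂ} (ha : Sym a) :
    Sym (fun ξ => (starRingEnd ℂ) (a (-ξ))) ∧
      ∀ ξ ∈ tsupport (fun ξ => (starRingEnd ℂ) (a (-ξ))), -ξ ∈ tsupport a := by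
  have hs : ∀ ξ ∈ tsupport (fun ξ => (starRingEnd ℂ) (a (-ξ))), -ξ ∈ tsupport a := by
    have h1 : tsupport (fun ξ => (starRingEnd ℂ) (a (-ξ))) ⊆ (fun ξ => -ξ) ⁻¹' tsupport a := by
      apply closure_minimal _ ((isClosed_tsupport a).preimage continuous_neg)
      intro ξ hξ
      rw [Function.mem_support] at hξ
      refine subset_tsupport _ ?_
      rw [Function.mem_support]
      exact fun h => hξ (by rw [h, map_zero])
    exact fun ξ hξ => h1 hξ
  refine ⟨⟨?_, ?_, fun h => ?_⟩, hs⟩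
  · exact Complex.conjCLE.contDiff.comp (ha.1.comp contDiff_neg)
  · have h2 : HasCompactSupport (fun ξ : EE d => a (-ξ)) := by
      have := ha.2.1.comp_homeomorph (Homeomorph.neg (EE d))
      exact this
    exact h2.comp_left (g := (starRingEnd ℂ)) (map_zero _)
  · have := hs 0 h
    rw [neg_zero] at this
    exact ha.2.2 this

theorem lint_scale {d : ℕ} (F : EE d → ℝ≥0∞) {c : ℝ} (hc : 0 < c) :
    ∫⁻ x : EE d, F (c • x) = ENNReal.ofReal ((c ^ d)⁻¹) * ∫⁻ x : EE d, F x := by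
  have h1 := lintegral_map_equiv (μ := (volume : Measure (EE d))) F
    (Homeomorph.smulOfNeZero c hc.ne').toMeasurableEquiv
  have h2 : ⇑(Homeomorph.smulOfNeZero c hc.ne' : EE d ≃ₜ EE d).toMeasurableEquiv =
      fun x => c • x := rfl
  rw [h2, Measure.map_addHaar_smul _ hc.ne', lintegral_smul_measure, finrank_euclideanSpace,
    Fintype.card_fin, abs_of_pos (by positivity), smul_eq_mul] at h1
  exact h1.symm

theorem lint_scale1 (G : ℝ → ℝ≥0∞) {c : ℝ} (hc : 0 < c) :
    ∫⁻ t in Icc (1 : ℝ) 2, G (c * t) = ENNReal.ofReal c⁻¹ * ∫⁻ t in Icc c (2 * c), G t := by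
  have h1 := lintegral_map_equiv (μ := (volume : Measure ℝ)) ((Icc c (2 * c)).indicator G)
    (Homeomorph.mulLeft₀ c hc.ne').toMeasurableEquiv
  have h2 : ⇑(Homeomorph.mulLeft₀ c hc.ne').toMeasurableEquiv = fun x => c * x := rfl
  rw [h2, Real.map_volume_mul_left hc.ne', lintegral_smul_measure, abs_of_pos (by positivity),
    smul_eq_mul, lintegral_indicator measurableSet_Icc] at h1
  rw [h1, ← lintegral_indicator measurableSet_Icc]
  refine lintegral_congr fun t => ?_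
  have h3 : c * t ∈ Icc c (2 * c) ↔ t ∈ Icc (1 : ℝ) 2 := by
    rw [mem_Icc, mem_Icc, le_mul_iff_one_le_right hc, mul_comm 2 c, mul_le_mul_iff_right₀ hc]
  by_cases h4 : t ∈ Icc (1 : ℝ) 2
  · rw [indicator_of_mem h4, indicator_of_mem (h3.2 h4)]
  · rw [indicator_of_notMem h4, indicator_of_notMem fun h => h4 (h3.1 h)]

theorem one_main (h : T_CORE) : T_ONE := by
  classical
  intro d k p ε a s hd hk hp hε ha hs ht
  obtain ⟨a', ha'⟩ : ∃ a' : Fin k → EE d → ℂ, a' = fun j =>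
      if s j = 1 then a j else fun ξ => (starRingEnd ℂ) (a j (-ξ)) := ⟨_, rfl⟩
  have hsym : ∀ j, Sym (a' j) := by
    intro j
    rw [ha']
    simp only
    split_ifs
    · exact ha j
    · exact (sym_conj (ha j)).1
  have htr : Transv (fun j => tsupport (a' j)) := by
    intro ξ hξ
    obtain ⟨ζ, hζ⟩ : ∃ ζ : Fin k → EE d, ζ = fun j => s j • ξ j := ⟨_, rfl⟩
    have h1 : ∀ j, ζ j ∈ tsupport (a j) := by
      intro j
      have h2 := hξ j
      rw [ha'] at h2
      simp only at h2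
      rw [hζ]
      simp only
      by_cases h3 : s j = 1
      · rw [if_pos h3] at h2
        rw [h3, one_smul]
        exact h2
      · rw [if_neg h3] at h2
        have h4 : s j = -1 := (hs j).resolve_left h3
        rw [h4, neg_one_smul]
        exact (sym_conj (ha j)).2 _ h2
    have h5 := ht ζ h1
    have h6 : (fun j => ((s j • ‖ζ j‖⁻¹ • ζ j, 1) : EE d × ℝ)) =
        fun j => ((‖ξ j‖⁻¹ • ξ j, 1) : EE d × ℝ) := by
      funext j
      rw [hζ]
      simp only
      have h7 : s j * s j = 1 := by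
        rcases hs j with h | h <;> rw [h] <;> norm_num
      have h8 : ‖s j‖ = 1 := by
        rcases hs j with h | h <;> rw [h] <;> norm_num
      rw [norm_smul, h8, one_mul, smul_comm (‖ξ j‖⁻¹) (s j), smul_smul, h7, one_smul]
    rw [h6] at h5
    exact h5
  obtain ⟨C, hC⟩ := h d k p ε a' hd hk hp hε hsym htr
  refine ⟨C, fun lam g hl => ?_⟩
  have hl0 : 0 < lam := by linarith
  obtain ⟨f, hf⟩ : ∃ f : Fin k → EE d → ℂ, f = fun j =>
      if s j = 1 then (fun y => g j (lam⁻¹ • y))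
      else fun y => (starRingEnd ℂ) (g j (lam⁻¹ • y)) := ⟨_, rfl⟩
  have hfn : ∀ j y, ‖f j y‖ = ‖g j (lam⁻¹ • y)‖ := by
    intro j y
    rw [hf]
    simp only
    split_ifs
    · rfl
    · exact RCLike.norm_conj _
  have hfe : ∀ j y, ‖f j y‖ₑ = ‖g j (lam⁻¹ • y)‖ₑ := by
    intro j y
    rw [← ofReal_norm, hfn, ofReal_norm]
  have hfB : ∀ j, BM (f j) := by
    intro j
    constructor
    · have h1 : Measurable fun y : EE d => g j (lam⁻¹ • y) :=
        (g j).continuous.measurable.comp (measurable_const_smul _)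
      rw [hf]
      simp only
      split_ifs
      · exact h1
      · exact Complex.continuous_conj.measurable.comp h1
    · refine ⟨‖(g j).toBoundedContinuousFunction‖, fun y => ?_⟩
      rw [hfn]
      exact (g j).toBoundedContinuousFunction.norm_coe_le_norm _
  have hW : ∀ j t x, ‖𝓕⁻ (fun ξ : EE d => e (s j * t * ‖ξ‖) * a j (lam⁻¹ • ξ) *
      𝓕 (g j : EE d → ℂ) ξ) x‖ₑ = ‖W (a' j) (f j) (lam • x, lam * t)‖ₑ := by
    intro j t x
    rw [← Pool.Agent.H14.LS.MM_eq (fun ξ : EE d => e (s j * t * ‖ξ‖) * a j (lam⁻¹ • ξ))]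
    by_cases h3 : s j = 1
    · rw [ha', hf]
      simp only [h3, if_true, one_mul]
      rw [← wave_eq (ha j) (g j).integrable hl0]
      rfl
    · have h4 : s j = -1 := (hs j).resolve_left h3
      rw [ha', hf]
      simp only [h3, if_false]
      have h5 : Integrable (fun y => (starRingEnd ℂ) (g j y)) := by
        refine (g j).integrable.norm.mono'
          (Complex.continuous_conj.comp (g j).continuous).aestronglyMeasurable
          (Filter.Eventually.of_forall fun x => (RCLike.norm_conj _).le)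
      rw [← wave_eq (g := fun y => (starRingEnd ℂ) (g j y)) (sym_conj (ha j)).1 h5 hl0]
      have h6 := conj_wave (a j) (g j) lam t x
      rw [← h6, ← ofReal_norm, ← ofReal_norm, RCLike.norm_conj, h4, neg_one_mul]
      rfl
  simp_rw [hW]
  have h9 := hC lam f hl hfB
  have h10 : ∀ j, ∫⁻ y, ‖f j y‖ₑ ^ p = ENNReal.ofReal (lam ^ d) * ∫⁻ y, ‖g j y‖ₑ ^ p := by
    intro j
    simp_rw [hfe]
    rw [lint_scale (fun y => ‖g j y‖ₑ ^ p) (inv_pos.2 hl0), inv_pow, inv_inv]
  have h11 : ∀ t, ∫⁻ x : EE d, (⨅ j, ‖W (a' j) (f j) (lam • x, lam * t)‖ₑ) ^ p =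
      ENNReal.ofReal ((lam ^ d)⁻¹) *
        ∫⁻ x : EE d, (⨅ j, ‖W (a' j) (f j) (x, lam * t)‖ₑ) ^ p := by
    intro t
    exact lint_scale (fun x => (⨅ j, ‖W (a' j) (f j) (x, lam * t)‖ₑ) ^ p) hl0
  simp_rw [h11]
  rw [lintegral_const_mul' _ _ ENNReal.ofReal_ne_top,
    lint_scale1 (fun t => ∫⁻ x : EE d, (⨅ j, ‖W (a' j) (f j) (x, t)‖ₑ) ^ p) hl0]
  calc ENNReal.ofReal ((lam ^ d)⁻¹) * (ENNReal.ofReal lam⁻¹ *
        ∫⁻ t in Icc lam (2 * lam), ∫⁻ x : EE d, (⨅ j, ‖W (a' j) (f j) (x, t)‖ₑ) ^ p) ≤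
      ENNReal.ofReal ((lam ^ d)⁻¹) * (ENNReal.ofReal lam⁻¹ *
        (C * ENNReal.ofReal (lam ^ (((d : ℝ) - 1) * (p / 2 - 1) + ε)) *
          ∑ j, ∫⁻ y, ‖f j y‖ₑ ^ p)) := by
        gcongr
    _ = C * (ENNReal.ofReal ((lam ^ d)⁻¹) * ENNReal.ofReal lam⁻¹ *
          ENNReal.ofReal (lam ^ (((d : ℝ) - 1) * (p / 2 - 1) + ε)) * ENNReal.ofReal (lam ^ d)) *
          ∑ j, ∫⁻ y, ‖g j y‖ₑ ^ p := by
        simp_rw [h10]
        rw [← Finset.mul_sum]
        ring
    _ = _ := by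
        rw [← ENNReal.ofReal_mul (by positivity), ← ENNReal.ofReal_mul (by positivity),
          ← ENNReal.ofReal_mul (by positivity)]
        congr 3
        have h12 : lam ^ (((d : ℝ) - 1) * (p / 2 - 1) - 1 + ε) =
            lam ^ (((d : ℝ) - 1) * (p / 2 - 1) + ε) * lam⁻¹ := by
          rw [← Real.rpow_neg_one, ← Real.rpow_add hl0]
          congr 1
          ring
        rw [h12]
        field_simp

end Pool.Agent.H82.KL
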