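import Pool.Agent.H27.KL.FIN

/-!
Multilinear local smoothing: one frequency, general data.
-/

set_option autoImplicit false

namespace Pool.Agent.H82.KL

open MeasureTheory Set FourierTransform
open scoped ENNReal NNReal SchwartzMap
open Pool.Agent.H84.BR.CD

/-- division by the norm -/
theorem sym_div {d : ℕ} {b : EE d → ℂ} (hb : Sym b) : Sym (fun ξ => b ξ * ((‖ξ‖ : ℝ) : ℂ)⁻¹) := by
  have hsub : tsupport (fun ξ => b ξ * ((‖ξ‖ : ℝ) : ℂ)⁻¹) ⊆ tsupport b := by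
    apply closure_mono
    intro ξ hξ
    rw [Function.mem_support] at hξ ⊢
    exact fun h => hξ (by rw [h, zero_mul])
  refine ⟨?_, hb.2.1.of_isClosed_subset (isClosed_tsupport _) hsub, fun h => hb.2.2 (hsub h)⟩
  rw [contDiff_iff_contDiffAt]
  intro ξ
  by_cases hξ : ξ ∈ tsupport b
  · have h0 : ξ ≠ 0 := fun h => hb.2.2 (h ▸ hξ)
    apply ContDiffAt.mul hb.1.contDiffAt
    apply ContDiffAt.inv
    · exact Complex.ofRealCLM.contDiff.contDiffAt.comp ξ (contDiffAt_norm ℝ h0)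
    · simpa using h0
  · have h1 : (fun ξ => b ξ * ((‖ξ‖ : ℝ) : ℂ)⁻¹) =ᶠ[nhds ξ] fun _ => 0 := by
      filter_upwards [(isClosed_tsupport b).isOpen_compl.mem_nhds hξ] with y hy
      rw [image_eq_zero_of_notMem_tsupport hy, zero_mul]
    exact contDiffAt_const.congr_of_eventuallyEq h1

theorem sobNorm_rpow {d : ℕ} {p : ℝ} (hp : 0 < p) (s : ℝ) (f : EE d → ℂ) :
    ∫⁻ y, ‖besS s f y‖ₑ ^ p = sobNorm p s f ^ p := by
  unfold sobNorm
  rw [eLpNorm_eq_lintegral_rpow_enorm_toReal (by simp [hp]) ENNReal.ofReal_ne_top,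
    ENNReal.toReal_ofReal hp.le, ← ENNReal.rpow_mul, one_div_mul_cancel hp.ne', ENNReal.rpow_one]

theorem pcb_main (h1 : T_ONE) (h2 : T_BES) (h3 : T_BUMP) : T_PCB := by
  intro d k p σ a s hd hk hp hσ ha hs ht
  have hp2 : 2 ≤ p := (Pk_ge hd hk).trans hp
  have hp0 : 0 < p := by linarith
  have hp1 : 1 ≤ p := by linarith
  have hpσ : p * σ < 1 := by
    rw [lt_div_iff₀ hp0] at hσ
    linarith
  obtain ⟨r0, hr0⟩ : ∃ r0 : ℝ, r0 = ((d : ℝ) - 1) * (1 / 2 - 1 / p) - σ := ⟨_, rfl⟩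
  obtain ⟨r1, hr1⟩ : ∃ r1 : ℝ, r1 = ((d : ℝ) - 1) * (1 / 2 - 1 / p) - 1 - σ := ⟨_, rfl⟩
  obtain ⟨C, hC⟩ := h1 d k p ((1 - p * σ) / 2) a s hd hk hp (by linarith) ha hs ht
  choose b hb hb1 using fun j => h3 d (a j) (ha j)
  choose C0 hC0 using fun j => h2 d p r0 (b j) hp1 (hb j)
  choose C1 hC1 using fun j => h2 d p r1 (fun ξ => b j ξ * ((‖ξ‖ : ℝ) : ℂ)⁻¹) hp1 (sym_div (hb j))
  obtain ⟨K, hK⟩ : ∃ K : ℝ≥0, K = C * ∑ j, (2 : ℝ≥0) ^ (p - 1) * (C0 j + C1 j) := ⟨_, rfl⟩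
  refine ⟨K ^ (1 / p), (1 - p * σ) / (2 * p), by
    apply div_pos <;> linarith, fun m u₀ u₁ => ?_⟩
  obtain ⟨lam, hlam⟩ : ∃ lam : ℝ, lam = (2 : ℝ) ^ m := ⟨_, rfl⟩
  have hl1 : 1 ≤ lam := by rw [hlam]; exact one_le_pow₀ (by norm_num)
  have hl0 : 0 < lam := by linarith
  choose G0 hG0 hG0' using fun j => hC0 j lam u₀ hl1
  choose G1 hG1 hG1' using fun j => hC1 j lam u₁ hl1
  obtain ⟨G, hG⟩ : ∃ G : Fin k → 𝓢(EE d, ℂ), G = fun j => (1 / 2 : ℂ) • G0 j +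
      (((s j : ℝ) : ℂ) / (4 * (Real.pi : ℂ) * Complex.I * (lam : ℂ))) • G1 j := ⟨_, rfl⟩
  have hGF : ∀ j ξ, 𝓕 (G j : EE d → ℂ) ξ = b j (lam⁻¹ • ξ) * hf (s j) u₀ u₁ ξ := by
    intro j ξ
    have e1 : 𝓕 (G j : EE d → ℂ) ξ = (1 / 2 : ℂ) * 𝓕 (G0 j : EE d → ℂ) ξ +
        (((s j : ℝ) : ℂ) / (4 * (Real.pi : ℂ) * Complex.I * (lam : ℂ))) *
          𝓕 (G1 j : EE d → ℂ) ξ := by
      rw [← SchwartzMap.fourier_coe, ← SchwartzMap.fourier_coe, ← SchwartzMap.fourier_coe, hG]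
      simp only [FourierTransform.fourier_add, FourierTransform.fourier_smul, add_apply,
        smul_apply, smul_eq_mul]
    rw [e1, hG0, hG1]
    unfold hf
    have e2 : ((‖lam⁻¹ • ξ‖ : ℝ) : ℂ)⁻¹ = (lam : ℂ) * ((‖ξ‖ : ℝ) : ℂ)⁻¹ := by
      rw [norm_smul, Real.norm_of_nonneg (by positivity)]
      push_cast
      rw [mul_inv, inv_inv]
    rw [e2]
    have e3 : (lam : ℂ) ≠ 0 := by exact_mod_cast hl0.ne'
    have e4 : (Real.pi : ℂ) ≠ 0 := by exact_mod_cast Real.pi_ne_zero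
    have e5 := Complex.I_ne_zero
    by_cases e6 : ((‖ξ‖ : ℝ) : ℂ) = 0
    · rw [e6]
      simp
      ring
    · field_simp
  have hpc : ∀ j t x, pc (a j) (s j) m u₀ u₁ t x =
      𝓕⁻ (fun ξ : EE d => e (s j * t * ‖ξ‖) * a j (lam⁻¹ • ξ) * 𝓕 (G j : EE d → ℂ) ξ) x := by
    intro j t x
    unfold pc
    rw [← hlam]
    refine congrArg (fun F : EE d → ℂ => 𝓕⁻ F x) (funext fun ξ => ?_)
    rw [hGF]
    by_cases h : a j (lam⁻¹ • ξ) = 0
    · rw [h]
      ring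
    · rw [hb1 j _ (subset_tsupport _ h)]
      ring
  have hX0 := sobNorm_rpow hp0 r0 (u₀ : EE d → ℂ)
  have hX1 := sobNorm_rpow hp0 r1 (u₁ : EE d → ℂ)
  obtain ⟨X, hX⟩ : ∃ X : ℝ≥0∞, X = datN p σ u₀ u₁ := ⟨_, rfl⟩
  have hX' : sobNorm p r0 (u₀ : EE d → ℂ) + sobNorm p r1 (u₁ : EE d → ℂ) = X := by
    rw [hX, hr0, hr1]
    rfl
  have hGn : ∀ j, ∫⁻ y, ‖G j y‖ₑ ^ p ≤
      ((2 : ℝ≥0) ^ (p - 1) * (C0 j + C1 j) : ℝ≥0) * ENNReal.ofReal (lam ^ (-(p * r0))) * X ^ p := by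
    intro j
    have e1 : ∀ y, ‖G j y‖ₑ ^ p ≤ (2 : ℝ≥0∞) ^ (p - 1) * (‖G0 j y‖ₑ ^ p +
        ENNReal.ofReal (lam ^ (-p)) * ‖G1 j y‖ₑ ^ p) := by
      intro y
      have e2 : ‖G j y‖ₑ ≤ ‖G0 j y‖ₑ + ENNReal.ofReal lam⁻¹ * ‖G1 j y‖ₑ := by
        rw [hG]
        simp only [add_apply, smul_apply, smul_eq_mul]
        refine (enorm_add_le _ _).trans (add_le_add ?_ ?_)
        · rw [enorm_mul]
          refine mul_le_of_le_one_left' ?_
          rw [← ofReal_norm, ENNReal.ofReal_le_one]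
          norm_num
        · rw [enorm_mul]
          gcongr
          rw [← ofReal_norm]
          apply ENNReal.ofReal_le_ofReal
          rw [norm_div, norm_mul, norm_mul, norm_mul, Complex.norm_I, Complex.norm_real,
            Complex.norm_real, Complex.norm_real, Real.norm_of_nonneg Real.pi_pos.le,
            Real.norm_of_nonneg hl0.le]
          have e3 : ‖s j‖ = 1 := by
            rcases hs j with h | h <;> rw [h] <;> norm_num
          rw [e3]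
          have e4 : ‖(4 : ℂ)‖ = 4 := by norm_num
          rw [e4, mul_one, inv_eq_one_div]
          apply one_div_le_one_div_of_le hl0
          have := Real.pi_gt_three
          nlinarith
      calc ‖G j y‖ₑ ^ p ≤ (‖G0 j y‖ₑ + ENNReal.ofReal lam⁻¹ * ‖G1 j y‖ₑ) ^ p :=
            ENNReal.rpow_le_rpow e2 hp0.le
        _ ≤ (2 : ℝ≥0∞) ^ (p - 1) * (‖G0 j y‖ₑ ^ p + (ENNReal.ofReal lam⁻¹ * ‖G1 j y‖ₑ) ^ p) :=
            ENNReal.rpow_add_le_mul_rpow_add_rpow _ _ hp1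
        _ = _ := by
            rw [ENNReal.mul_rpow_of_nonneg _ _ hp0.le, ENNReal.ofReal_rpow_of_pos (by positivity),
              Real.inv_rpow hl0.le, Real.rpow_neg hl0.le]
    have hme : Measurable fun y => ‖G0 j y‖ₑ ^ p :=
      (G0 j).continuous.measurable.enorm.pow_const _
    calc ∫⁻ y, ‖G j y‖ₑ ^ p ≤ ∫⁻ y, (2 : ℝ≥0∞) ^ (p - 1) * (‖G0 j y‖ₑ ^ p +
          ENNReal.ofReal (lam ^ (-p)) * ‖G1 j y‖ₑ ^ p) := lintegral_mono e1
      _ = (2 : ℝ≥0∞) ^ (p - 1) * ((∫⁻ y, ‖G0 j y‖ₑ ^ p) +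
          ENNReal.ofReal (lam ^ (-p)) * ∫⁻ y, ‖G1 j y‖ₑ ^ p) := by
          rw [lintegral_const_mul' _ _ (by
            exact ENNReal.rpow_ne_top_of_nonneg (by linarith) (by norm_num)),
            lintegral_add_left hme, lintegral_const_mul' _ _ ENNReal.ofReal_ne_top]
      _ ≤ (2 : ℝ≥0∞) ^ (p - 1) * (C0 j * ENNReal.ofReal (lam ^ (-(p * r0))) *
            sobNorm p r0 (u₀ : EE d → ℂ) ^ p +
          ENNReal.ofReal (lam ^ (-p)) * (C1 j * ENNReal.ofReal (lam ^ (-(p * r1))) *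
            sobNorm p r1 (u₁ : EE d → ℂ) ^ p)) := by
          have q0 := hG0' j
          have q1 := hG1' j
          rw [hX0] at q0
          rw [hX1] at q1
          gcongr
      _ = (2 : ℝ≥0∞) ^ (p - 1) * ENNReal.ofReal (lam ^ (-(p * r0))) * (C0 j *
            sobNorm p r0 (u₀ : EE d → ℂ) ^ p + C1 j * sobNorm p r1 (u₁ : EE d → ℂ) ^ p) := by
          have e5 : lam ^ (-(p * r0)) = lam ^ (-p) * lam ^ (-(p * r1)) := by
            rw [← Real.rpow_add hl0]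
            congr 1
            rw [hr0, hr1]
            ring
          rw [e5, ENNReal.ofReal_mul (by positivity)]
          ring
      _ ≤ (2 : ℝ≥0∞) ^ (p - 1) * ENNReal.ofReal (lam ^ (-(p * r0))) *
            ((C0 j + C1 j) * X ^ p) := by
          gcongr
          have e6 : sobNorm p r0 (u₀ : EE d → ℂ) ^ p ≤ X ^ p := by
            rw [← hX']
            exact ENNReal.rpow_le_rpow le_self_add hp0.le
          have e7 : sobNorm p r1 (u₁ : EE d → ℂ) ^ p ≤ X ^ p := by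
            rw [← hX']
            exact ENNReal.rpow_le_rpow le_add_self hp0.le
          rw [add_mul]
          gcongr
      _ = _ := by
          rw [ENNReal.coe_mul, ENNReal.coe_rpow_of_nonneg _ (by linarith : 0 ≤ p - 1)]
          push_cast
          ring
  have hmain := hC lam G hl1
  have hlhs : ∫⁻ t in Icc (1 : ℝ) 2, ∫⁻ x : EE d, (⨅ j, ‖pc (a j) (s j) m u₀ u₁ t x‖ₑ) ^ p ≤
      (K : ℝ≥0∞) * ENNReal.ofReal (lam ^ (-(p * ((1 - p * σ) / (2 * p))))) * X ^ p := by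
    simp_rw [hpc]
    refine hmain.trans ?_
    calc (C : ℝ≥0∞) * ENNReal.ofReal (lam ^ (((d : ℝ) - 1) * (p / 2 - 1) - 1 + (1 - p * σ) / 2)) *
          ∑ j, ∫⁻ y, ‖G j y‖ₑ ^ p ≤
        C * ENNReal.ofReal (lam ^ (((d : ℝ) - 1) * (p / 2 - 1) - 1 + (1 - p * σ) / 2)) *
          ∑ j, ((2 : ℝ≥0) ^ (p - 1) * (C0 j + C1 j) : ℝ≥0) *
            ENNReal.ofReal (lam ^ (-(p * r0))) * X ^ p := by
          gcongr with j _
          exact hGn j
      _ = (K : ℝ≥0∞) * (ENNReal.ofReal (lam ^ (((d : ℝ) - 1) * (p / 2 - 1) - 1 +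
          (1 - p * σ) / 2)) * ENNReal.ofReal (lam ^ (-(p * r0)))) * X ^ p := by
          rw [← Finset.sum_mul, ← Finset.sum_mul, hK, ENNReal.coe_mul, ENNReal.ofNNReal_finsetSum]
          ring
      _ = _ := by
          rw [← ENNReal.ofReal_mul (by positivity), ← Real.rpow_add hl0]
          congr 4
          rw [hr0]
          field_simp
          ring
  calc _ ≤ ((K : ℝ≥0∞) * ENNReal.ofReal (lam ^ (-(p * ((1 - p * σ) / (2 * p))))) * X ^ p) ^
        (1 / p) := ENNReal.rpow_le_rpow hlhs (by positivity)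
    _ = _ := by
        rw [ENNReal.mul_rpow_of_nonneg _ _ (by positivity),
          ENNReal.mul_rpow_of_nonneg _ _ (by positivity), ← ENNReal.rpow_mul,
          mul_one_div_cancel hp0.ne', ENNReal.rpow_one, ENNReal.ofReal_rpow_of_pos (by positivity),
          ← Real.rpow_mul hl0.le, ENNReal.coe_rpow_of_nonneg _ (by positivity), hX, hlam,
          ← Real.rpow_natCast, ← Real.rpow_mul (by norm_num)]
        congr 3
        field_simp

end Pool.Agent.H82.KL
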